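import Pool.Agent.Helper97.Nag.Goals

/-!
# Project NAG (MP_d3128a_ag): packet LPE, the parameters in the empty case
-/

set_option autoImplicit false

noncomputable section

namespace Pool.Agent.Helper50.Nag.LPE

open Pool.Agent.Helper97 Pool.Agent.Helper97.Nag

/-- a countable union of sets with at most one element does not cover an interval -/
theorem exists_good (e0 : ℝ) (he : 0 < e0) (a b : ℕ → ℝ) (g : ℕ → ℕ → ℝ) (P : ℕ → Prop)
    (ha : ∀ j, P j → a j ≠ 0) :
    ∃ eta : ℝ, 0 < eta ∧ eta < e0 ∧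
      ∀ j : ℕ, P j → ∀ (l : ℕ) (n : ℤ), b j - a j * eta + g j l ≠ n := by
  by_contra hcon
  push Not at hcon
  have hsub : Set.Ioo (0 : ℝ) e0 ⊆
      ⋃ (j : ℕ), ⋃ (l : ℕ), ⋃ (n : ℤ), {x : ℝ | P j ∧ b j - a j * x + g j l = n} := by
    intro x hx
    obtain ⟨j, hj, l, n, h⟩ := hcon x hx.1 hx.2
    simp only [Set.mem_iUnion]
    exact ⟨j, l, n, hj, h⟩
  have hc : (⋃ (j : ℕ), ⋃ (l : ℕ), ⋃ (n : ℤ),
      {x : ℝ | P j ∧ b j - a j * x + g j l = n}).Countable := by
    refine Set.countable_iUnion fun j => Set.countable_iUnion fun l =>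
      Set.countable_iUnion fun n => Set.Subsingleton.countable ?_
    rintro x ⟨hj, hx⟩ y ⟨_, hy⟩
    have h1 : a j * x = a j * y := by linarith
    exact mul_left_cancel₀ (ha j hj) h1
  have h2 := (Cardinal.Real.Ioo_countable_iff.1 (hc.mono hsub))
  linarith

theorem t : S_LPE := by
  intro k r p d m hk hr hrp hm hkm hd
  have hk0 : (0 : ℝ) < k := by exact_mod_cast (by omega : 0 < k)
  have hm1 : (1 : ℝ) ≤ m := by exact_mod_cast hm
  have hm0 : (0 : ℝ) < m := by linarith
  have hp0n : 0 < p := by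
    rcases Nat.eq_zero_or_pos p with h | h
    · subst h
      have : 0 < k ^ 2 := by positivity
      omega
    · exact h
  have hp0 : (0 : ℝ) < p := by exact_mod_cast hp0n
  have hrpR : (r : ℝ) * p = (k : ℝ) ^ 2 := by exact_mod_cast hrp
  have hkmR : (k : ℝ) * m < d := by exact_mod_cast hkm
  have hdR : (d : ℝ) ^ 2 < ((k : ℝ) ^ 2 + r) * (m : ℝ) ^ 2 := by exact_mod_cast hd
  obtain ⟨t, ht⟩ : ∃ t : ℝ, t = (d : ℝ) / k := ⟨_, rfl⟩
  have hdt : (d : ℝ) = k * t := by
    rw [ht]
    field_simp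
  have htm : (m : ℝ) < t := by
    rw [hdt] at hkmR
    exact lt_of_mul_lt_mul_left hkmR hk0.le
  have ht0 : 0 < t := by linarith
  have hkey : (p : ℝ) * (t - m) * (t + m) < (m : ℝ) ^ 2 := by
    have h1 : ((k : ℝ) * t) ^ 2 < ((k : ℝ) ^ 2 + r) * (m : ℝ) ^ 2 := by rw [← hdt]; exact hdR
    have h2 : (k : ℝ) ^ 2 * ((p : ℝ) * (t - m) * (t + m)) < (k : ℝ) ^ 2 * (m : ℝ) ^ 2 := by
      have h3 : (p : ℝ) * ((k * t) ^ 2 - (k : ℝ) ^ 2 * (m : ℝ) ^ 2) < p * (r * (m : ℝ) ^ 2) := by
        apply mul_lt_mul_of_pos_left _ hp0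
        linarith
      calc (k : ℝ) ^ 2 * ((p : ℝ) * (t - m) * (t + m))
          = (p : ℝ) * ((k * t) ^ 2 - (k : ℝ) ^ 2 * (m : ℝ) ^ 2) := by ring
        _ < p * (r * (m : ℝ) ^ 2) := h3
        _ = (r * p) * (m : ℝ) ^ 2 := by ring
        _ = (k : ℝ) ^ 2 * (m : ℝ) ^ 2 := by rw [hrpR]
    exact lt_of_mul_lt_mul_left h2 (by positivity)
  obtain ⟨u, hu⟩ : ∃ u : ℝ, u = t - m := ⟨_, rfl⟩
  have hu0 : 0 < u := by linarith
  rw [← hu] at hkey
  have hcmp : p * u / m < (m - p * u) / t := by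
    rw [div_lt_div_iff₀ hm0 ht0]
    nlinarith
  obtain ⟨rho, hrho1, hrho2⟩ := exists_between hcmp
  have hrho0 : 0 < rho := lt_trans (by positivity) hrho1
  have h1 : p * u < rho * m := by
    rwa [div_lt_iff₀ hm0] at hrho1
  have h2 : rho * t + p * u < m := by
    rw [lt_div_iff₀ ht0] at hrho2
    linarith
  have hrho_lt : rho < 1 := by
    have h3 : rho * t < 1 * t := by
      have : 0 < p * u := by positivity
      linarith
    exact lt_of_mul_lt_mul_right h3 ht0.le
  have hC : 0 < (1 - rho) * (m - p * u / rho) := by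
    apply mul_pos (by linarith)
    have : p * u / rho < m := by
      rw [div_lt_iff₀ hrho0]
      linarith
    linarith
  have hD : 0 < u * (p + rho) / rho := by positivity
  obtain ⟨e0, he0⟩ : ∃ e0 : ℝ, e0 = min (min (p : ℝ) rho)
    ((1 - rho) * (m - p * u / rho) / (u * (p + rho) / rho)) := ⟨_, rfl⟩
  have he0pos : 0 < e0 := by
    rw [he0]
    exact lt_min (lt_min hp0 hrho0) (div_pos hC hD)
  obtain ⟨eta, heta0, heta1, hgood⟩ := exists_good e0 he0pos
    (fun j => t - (max j m : ℕ)) (fun j => -(t - j) * (1 - rho))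
    (fun j l => l * ((kap k d m j : ℝ) / r)) (fun j => k * j < d) (by
      intro j hj
      have hjt : (j : ℝ) < t := by
        have h3 : (k : ℝ) * j < d := by exact_mod_cast hj
        rw [hdt] at h3
        exact lt_of_mul_lt_mul_left h3 hk0.le
      have : ((max j m : ℕ) : ℝ) < t := by
        rw [Nat.cast_max]
        exact max_lt hjt htm
      exact ne_of_gt (by linarith))
  rw [he0] at heta1
  have heta_p : eta < p := lt_of_lt_of_le heta1 (le_trans (min_le_left _ _) (min_le_left _ _))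
  have heta_rho : eta < rho := lt_of_lt_of_le heta1 (le_trans (min_le_left _ _) (min_le_right _ _))
  have heta_C : eta < (1 - rho) * (m - p * u / rho) / (u * (p + rho) / rho) :=
    lt_of_lt_of_le heta1 (min_le_right _ _)
  refine ⟨rho, eta, heta0, heta_p, heta_rho, hrho_lt, ?_, ?_, ?_, ?_⟩
  · rw [← ht, ← hu]
    exact h1
  · rw [← ht, ← hu]
    exact h2
  · rw [← ht, ← hu]
    rw [lt_div_iff₀ hD] at heta_C
    have : eta * u * (p + rho) / rho = eta * (u * (p + rho) / rho) := by ring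
    rw [this]
    exact heta_C.le
  · intro j hj l n
    have h3 := hgood j hj l n
    have h4 : Aj k d m (1 - rho) eta j =
        -(t - j) * (1 - rho) - (t - ((max j m : ℕ) : ℝ)) * eta := by
      unfold Aj
      rw [← ht]
    rw [h4]
    exact h3

end Pool.Agent.Helper50.Nag.LPE
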